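import Mathlib

set_option autoImplicit false

namespace Pool.Agent.Results.MP_b01501_co.Counterexample

open scoped Pointwise symmDiff
open Set Equiv

section Defs
variable {G : Type} [Group G]

/-- `K` is finite, nonempty and `(H, ε)`-invariant. -/
def AlmostInv (H : Set G) (ε : ℝ) (K : Set G) : Prop :=
  K.Finite ∧ K.Nonempty ∧ ∀ h ∈ H, (((h • K) ∆ K).ncard : ℝ) < ε * K.ncard

def Amenable (G : Type) [Group G] : Prop := ∀ H : Set G, H.Finite → ∀ ε > 0, ∃ K, AlmostInv H ε K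

/-- Upper Banach density. -/
noncomputable def dens (A : Set G) : ℝ :=
  sSup {α | ∀ H : Set G, H.Finite → ∀ ε > 0, ∃ K, AlmostInv H ε K ∧ α * K.ncard ≤ (A ∩ K).ncard}

def Thick (A : Set G) : Prop := ∀ H : Set G, H.Finite → ∃ x, ∀ h ∈ H, h * x ∈ A

def PwSyndetic (k : ℕ) (A : Set G) : Prop := ∃ F : Finset G, F.card ≤ k ∧ Thick ((F : Set G) * A)

lemma le_dens {A : Set G} {α : ℝ}
    (h : ∀ H : Set G, H.Finite → ∀ ε > 0, ∃ K, AlmostInv H ε K ∧ α * K.ncard ≤ (A ∩ K).ncard) :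
    α ≤ dens A := by
  refine le_csSup ⟨1, fun β hβ => ?_⟩ h
  obtain ⟨K, hK, h1⟩ := hβ ∅ finite_empty 1 one_pos
  have h2 : ((A ∩ K).ncard : ℝ) ≤ K.ncard := by exact_mod_cast ncard_le_ncard inter_subset_right hK.1
  have h3 : (0 : ℝ) < K.ncard := by exact_mod_cast (ncard_pos hK.1).mpr hK.2.1
  nlinarith

lemma inv_coset (P : Subgroup G) (hP : (P : Set G).Finite) (x : G) {H : Set G} (hH : H ⊆ P) {ε : ℝ}
    (hε : 0 < ε) : AlmostInv H ε {g | g * x⁻¹ ∈ P} := by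
  have hf : {g | g * x⁻¹ ∈ P}.Finite := hP.preimage (mul_left_injective x⁻¹).injOn
  have hn : {g | g * x⁻¹ ∈ P}.Nonempty := ⟨x, by simp⟩
  refine ⟨hf, hn, fun h hh => ?_⟩
  have : h • {g | g * x⁻¹ ∈ P} = {g | g * x⁻¹ ∈ P} := by
    ext g
    rw [mem_smul_set_iff_inv_smul_mem]
    simp only [smul_eq_mul, mem_setOf_eq, mul_assoc]
    exact P.mul_mem_cancel_left (P.inv_mem (hH hh))
  rw [this, symmDiff_self, bot_eq_empty, ncard_empty, Nat.cast_zero]
  exact mul_pos hε (by exact_mod_cast (ncard_pos hf).mpr hn)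

end Defs

abbrev X := ℕ × ℕ

def FS : Subgroup (Perm X) where
  carrier := {σ | {x | σ x ≠ x}.Finite}
  mul_mem' := fun {a b} ha hb => (Set.Finite.union ha hb).subset fun x hx => by
    by_contra h
    simp only [mem_union, mem_setOf_eq, not_or, not_not] at h
    exact hx (by rw [Perm.mul_apply, h.2, h.1])
  one_mem' := by simp
  inv_mem' := fun {a} ha => Set.Finite.subset ha fun x hx h => hx (Perm.inv_eq_iff_eq.mpr h.symm)

def P (S : Set X) : Subgroup FS where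
  carrier := {σ | ∀ x ∉ S, σ.1 x = x}
  mul_mem' := fun {a b} ha hb x hx => by
    rw [Subgroup.coe_mul, Perm.mul_apply, hb x hx, ha x hx]
  one_mem' := fun _ _ => rfl
  inv_mem' := fun {a} ha x hx => Perm.inv_eq_iff_eq.mpr (ha x hx).symm

lemma P_map {S : Set X} {σ : FS} (h : σ ∈ P S) {x : X} (hx : x ∈ S) : σ.1 x ∈ S :=
  by_contra fun h1 => h1 (by rw [σ.1.injective (h _ h1)]; exact hx)

lemma P_fin {S : Set X} (hS : S.Finite) : (P S : Set FS).Finite := by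
  have := hS.to_subtype
  refine Finite.of_injective (fun (σ : P S) (x : S) => (⟨_, P_map σ.2 x.2⟩ : S)) fun a b h => ?_
  refine Subtype.ext (Subtype.ext (Equiv.ext fun x => ?_))
  by_cases hx : x ∈ S
  · exact congrArg Subtype.val (congrFun h ⟨x, hx⟩)
  · rw [a.2 x hx, b.2 x hx]

lemma supp {H : Set FS} (hH : H.Finite) :
    ∃ S : Set X, S.Finite ∧ H ⊆ P S ∧ ∀ i : Fin 3, ((i : ℕ), 0) ∈ S :=
  ⟨(⋃ h ∈ H, {x | h.1 x ≠ x}) ∪ range fun i : Fin 3 => ((i : ℕ), 0),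
    (hH.biUnion fun h _ => h.2).union (finite_range _),
    fun h hh x hx => by_contra fun h1 => hx (Or.inl (mem_biUnion hh h1)), fun i => Or.inr ⟨i, rfl⟩⟩

def sw (a b : X) : FS :=
  ⟨swap a b, (toFinite {a, b}).subset fun x hx => by
    by_contra h
    simp only [mem_insert_iff, mem_singleton_iff, not_or] at h
    exact hx (swap_apply_of_ne_of_ne h.1 h.2)⟩

lemma intoQ {S : Set X} (hS : S.Finite) : ∃ z : FS, ∀ s ∈ S, (z.1 s).2 = 0 := by
  induction S, hS using Set.Finite.induction_on with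
  | empty => exact ⟨1, by simp⟩
  | @insert s S hs hS ih =>
    obtain ⟨z, hz⟩ := ih
    obtain ⟨n, hn⟩ := (hS.image fun t => (z.1 t).1).exists_notMem
    refine ⟨sw (z.1 s) (n, 0) * z, ?_⟩
    rintro t (rfl | ht)
    · simp [sw]
    · change (swap _ _ (z.1 t)).2 = 0
      have e1 : z.1 t ≠ z.1 s := fun h => hs (by rw [← z.1.injective h]; exact ht)
      have e2 : z.1 t ≠ (n, 0) := fun h => hn ⟨t, ht, by simp [h]⟩
      rw [swap_apply_of_ne_of_ne e1 e2]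
      exact hz t ht

def ρ (c : FS) (i : ℕ) : ℕ := (c⁻¹.1 (i, 0)).1

def T : Set FS := {c | ρ c 1 < ρ c 0 ∨ ρ c 2 < ρ c 0}

def A : Set FS := {c | c ∈ T ∧ ∀ i : Fin 3, (c⁻¹.1 (i, 0)).2 = 0}

def B : Set FS := {b | ∀ n, (b.1 (n, 0)).1 = n}

lemma ρ_sw (c : FS) (i j : ℕ) : ρ (sw (0, 0) (i, 0) * c) j = ρ c (swap 0 i j) := by
  simp only [ρ, sw, mul_inv_rev, Subgroup.coe_mul, Perm.mul_apply, Subgroup.coe_inv, swap_inv]
  congr 2
  exact (Function.Injective.swap_apply (f := fun n : ℕ => ((n, 0) : X))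
    (fun _ _ h => congrArg Prod.fst h) 0 i j)

lemma sub : A * B⁻¹ ⊆ T := by
  rintro _ ⟨a, ha, b, hb, rfl⟩
  have h : ∀ i : Fin 3, ρ (a * b) i = ρ a i := fun i => by
    have := mem_inv.mp hb (ρ a i)
    rw [← ha.2 i] at this
    simpa [ρ] using this
  exact ha.1.imp (fun h1 => (h 1).trans_lt (h1.trans_eq (h 0).symm))
    fun h1 => (h 2).trans_lt (h1.trans_eq (h 0).symm)

lemma dB : 1 ≤ dens B := le_dens fun H hH ε hε => by
  obtain ⟨S, hS, h1, -⟩ := supp hH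
  obtain ⟨N, hN⟩ := (hS.image fun s => s.1 + s.2).bddAbove
  let x : FS := ⟨prodCongrRight fun i => if i ≤ N then swap 0 (N + 1) else Equiv.refl ℕ,
    ((finite_Iic N).prod (toFinite {0, N + 1})).subset fun p hp => by
      by_contra h
      apply hp
      obtain ⟨i, j⟩ := p
      by_cases hi : i ≤ N
      · have : j ≠ 0 ∧ j ≠ N + 1 := by simpa [hi] using h
        simp [hi, swap_apply_of_ne_of_ne this.1 this.2]
      · simp [hi]⟩
  refine ⟨_, inv_coset _ (P_fin hS) x h1 hε, ?_⟩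
  suffices h0 : {g | g * x⁻¹ ∈ P S} ⊆ B by rw [one_mul, inter_eq_right.mpr h0]
  intro g hg n
  have h2 : x.1 (n, 0) ∉ S := fun h => by
    have := hN ⟨_, h, rfl⟩
    by_cases hi : n ≤ N <;> simp [x, hi] at this <;> omega
  have h3 := hg _ h2
  have h4 : g.1 (n, 0) = x.1 (n, 0) := by simpa using h3
  rw [h4]
  rfl

lemma dA : 2 / 3 ≤ dens A := le_dens fun H hH ε hε => by
  obtain ⟨S, hS, h1, h2⟩ := supp hH
  obtain ⟨z, hz⟩ := intoQ hS
  have hI := inv_coset _ (P_fin hS) z⁻¹ h1 hε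
  refine ⟨_, hI, ?_⟩
  set K := {g | g * z⁻¹⁻¹ ∈ P S} with hK
  have h3 : ∀ g ∈ K, ∀ i : Fin 3, (g⁻¹.1 (i, 0)).2 = 0 := fun g hg i => by
    have := hz _ (P_map ((P S).inv_mem hg) (h2 i))
    simpa using this
  have h4 : ∀ g ∈ K, ∀ i j : Fin 3, ρ g i = ρ g j → i = j := fun g hg i j h =>
    Fin.ext (congrArg Prod.fst (g⁻¹.1.injective (Prod.ext h ((h3 g hg i).trans (h3 g hg j).symm))))
  have h5 : ∀ g ∈ K, ∀ i : Fin 3, sw (0, 0) (i, 0) * g ∈ K := fun g hg i => by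
    rw [hK, mem_setOf_eq, mul_assoc]
    exact (P S).mul_mem (fun x hx => swap_apply_of_ne_of_ne (fun h => hx (h ▸ h2 0))
      fun h => hx (h ▸ h2 i)) hg
  have h6 : ∀ g ∈ K \ A, ρ g 0 < ρ g 1 ∧ ρ g 0 < ρ g 2 := fun g hg => by
    have a1 : ¬ (ρ g 1 < ρ g 0 ∨ ρ g 2 < ρ g 0) := fun h => hg.2 ⟨h, h3 g hg.1⟩
    have a2 : ρ g 0 ≠ ρ g 1 := fun h => absurd (h4 g hg.1 0 1 h) (by decide)
    have a3 : ρ g 0 ≠ ρ g 2 := fun h => absurd (h4 g hg.1 0 2 h) (by decide)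
    omega
  have hf : (K \ A).Finite := hI.1.diff
  have h7 : ((sw (0, 0) (1, 0) * ·) '' (K \ A) ∪ (sw (0, 0) (2, 0) * ·) '' (K \ A)).ncard ≤
      (A ∩ K).ncard := by
    refine ncard_le_ncard ?_ (hI.1.inter_of_right _)
    rintro _ (⟨g, hg, rfl⟩ | ⟨g, hg, rfl⟩)
    · exact ⟨⟨Or.inl (by simpa [ρ_sw] using (h6 g hg).1), h3 _ (h5 g hg.1 1)⟩, h5 g hg.1 1⟩
    · exact ⟨⟨Or.inr (by simpa [ρ_sw] using (h6 g hg).2), h3 _ (h5 g hg.1 2)⟩, h5 g hg.1 2⟩
  rw [ncard_union_eq _ (hf.image _) (hf.image _), ncard_image_of_injective _ (mul_right_injective _),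
    ncard_image_of_injective _ (mul_right_injective _)] at h7
  · have h8 := ncard_inter_add_ncard_diff_eq_ncard K A hI.1
    rw [inter_comm] at h8
    have h9 : 2 * K.ncard ≤ 3 * (A ∩ K).ncard := by omega
    have : (2 * K.ncard : ℝ) ≤ 3 * (A ∩ K).ncard := by exact_mod_cast h9
    linarith
  · rw [Set.disjoint_left]
    rintro _ ⟨g, hg, rfl⟩ ⟨g', hg', h⟩
    have b1 := congrArg (ρ · 1) h
    have b2 := congrArg (ρ · 2) h
    simp only [ρ_sw] at b1 b2
    have c1 : swap 0 2 1 = 1 := by decide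
    have c2 : swap 0 1 2 = 2 := by decide
    rw [c1, swap_apply_right] at b1
    rw [c2, swap_apply_right] at b2
    have := h6 g hg
    have := h6 g' hg'
    omega

theorem result : ∃ (G : Type) (_ : Group G) (A B : Set G), Amenable G ∧ 0 < dens A ∧ 0 < dens B ∧
    ¬ PwSyndetic ⌊1 / (dens A * dens B)⌋₊ (A * B⁻¹) := by
  refine ⟨FS, inferInstance, A, B, fun H hH ε hε => ?_, by linarith [dA], by linarith [dB], ?_⟩
  · obtain ⟨S, hS, h1, -⟩ := supp hH
    exact ⟨_, inv_coset _ (P_fin hS) 1 h1 hε⟩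
  · rintro ⟨F, hF, h⟩
    have h1 : ⌊1 / (dens A * dens B)⌋₊ < 2 := by
      rw [Nat.floor_lt' two_ne_zero, div_lt_iff₀ (by nlinarith [dA, dB])]
      push_cast
      nlinarith [dA, dB]
    obtain ⟨f, hf⟩ := Finset.card_le_one_iff_subset_singleton.mp (show F.card ≤ 1 by omega)
    obtain ⟨x, hx⟩ := h (range fun i : Fin 3 => f * sw (0, 0) (i, 0)) (finite_range _)
    have h2 : ∀ i : Fin 3, sw (0, 0) (i, 0) * x ∈ T := fun i => by
      obtain ⟨f', hf', c, hc, h3⟩ := hx _ ⟨i, rfl⟩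
      rw [Finset.mem_singleton.mp (hf hf')] at h3
      simp only [mul_assoc, mul_right_inj] at h3
      exact h3 ▸ sub hc
    have a0 := h2 0
    have a1 := h2 1
    have a2 := h2 2
    have c1 : swap 0 2 1 = 1 := by decide
    have c2 : swap 0 1 2 = 2 := by decide
    simp [T, ρ_sw, c1, c2] at a0 a1 a2
    omega

end Pool.Agent.Results.MP_b01501_co.Counterexample
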